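import Pool.Agent.Helper21.PS.Basic

/-!
# MP_8013d7_co: module RI (rigidity)
-/

set_option autoImplicit false

namespace PS

open SimpleGraph Finset Pool.Agent.Helper37.PathSys
open Pool.Agent.Helper37.PathSys.PathSystem

open scoped Classical

noncomputable section

variable {n : ℕ} {G : SimpleGraph (Fin n)} {P : PathSystem G}

lemma weight_lin (w w' : Sym2 (Fin n) → ℝ) (t : ℝ) {u v : Fin n} (p : G.Walk u v) :
    weight (fun e => w e + t * w' e) p = weight w p + t * weight w' p := by
  unfold weight
  induction p.edges with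
  | nil => simp
  | cons e l ih =>
    simp only [List.map_cons, List.sum_cons, ih]
    ring

lemma Cn_add (W : Finset (Fin n)) {w w' : Sym2 (Fin n) → ℝ} (hw : w ∈ Cn W P)
    (hw' : w' ∈ Cn W P) {t : ℝ} (ht : 0 < t) : (fun e => w e + t * w' e) ∈ Cn W P := by
  refine ⟨fun e he => ?_, fun a b hab q => ?_⟩
  · have h1 := hw.1 e he
    have h2 := hw'.1 e he
    positivity
  · rw [weight_lin, weight_lin]
    have h1 := hw.2 a b hab q
    have h2 := hw'.2 a b hab q
    have := mul_le_mul_of_nonneg_left h2 ht.le
    linarith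

/-- one weight that separates all positions of `S` -/
lemma exists_common (W : Finset (Fin n)) (z x : Fin n) (S : Finset (Fin n))
    (hS : ∀ u ∈ S, ∃ w ∈ Cn W P, w s(u, z) ≠ w s(u, x)) :
    S = ∅ ∨ ∃ w ∈ Cn W P, ∀ u ∈ S, w s(u, z) ≠ w s(u, x) := by
  induction S using Finset.induction_on with
  | empty => exact Or.inl rfl
  | insert u S hu ih =>
    right
    obtain ⟨w', hw', hne⟩ := hS u (mem_insert_self u S)
    rcases ih (fun v hv => hS v (mem_insert_of_mem hv)) with rfl | ⟨w, hw, hwS⟩
    · exact ⟨w', hw', fun v hv => by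
        rw [mem_insert] at hv
        rcases hv with rfl | hv
        · exact hne
        · simp at hv⟩
    · by_cases h0 : w s(u, z) ≠ w s(u, x)
      · refine ⟨w, hw, fun v hv => ?_⟩
        rw [mem_insert] at hv
        rcases hv with rfl | hv
        · exact h0
        · exact hwS v hv
      · push Not at h0
        obtain ⟨t, ht, htb⟩ := (Set.Ioi_infinite (0 : ℝ)).exists_notMem_finset
          (S.image fun v => -(w s(v, z) - w s(v, x)) / (w' s(v, z) - w' s(v, x)))
        have ht0 : (0 : ℝ) < t := ht
        refine ⟨fun e => w e + t * w' e, Cn_add W hw hw' ht0, fun v hv => ?_⟩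
        rw [mem_insert] at hv
        rcases hv with rfl | hv
        · intro h
          have h1 : t * (w' s(v, z) - w' s(v, x)) = 0 := by
            have : w s(v, z) + t * w' s(v, z) = w s(v, x) + t * w' s(v, x) := h
            rw [h0] at this
            linarith
          rcases mul_eq_zero.1 h1 with h2 | h2
          · exact ht0.ne' h2
          · exact hne (sub_eq_zero.1 h2)
        · intro h
          have h1 : w s(v, z) + t * w' s(v, z) = w s(v, x) + t * w' s(v, x) := h
          have h2 := hwS v hv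
          have h3 : w' s(v, z) - w' s(v, x) ≠ 0 := by
            intro h4
            apply h2
            have : w' s(v, z) = w' s(v, x) := sub_eq_zero.1 h4
            rw [this] at h1
            linarith
          apply htb
          rw [mem_image]
          refine ⟨v, hv, ?_⟩
          rw [div_eq_iff h3]
          linarith

/-- the comparison of two 2-paths -/
lemma no_pair (hP : P.Consistent) {ε : ℝ} (hR : RR ε P) (W : Finset (Fin n)) {z x : Fin n}
    {w : Sym2 (Fin n) → ℝ} (hw : w ∈ Cn W P) (A : Finset (Fin n))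
    (hz : ∀ a ∈ A, (dirG P).Adj a z) (hx : ∀ a ∈ A, (dirG P).Adj a x)
    (hW : ∀ a ∈ A, ∀ b ∈ A, (a ∈ W ↔ b ∈ W)) (hlt : ∀ a ∈ A, w s(a, x) < w s(a, z)) :
    (A.card : ℝ) < ε * n := by
  by_contra hcon
  push Not at hcon
  obtain ⟨a, ha, b, hb, hab, h1, h2⟩ := hR z A (fun a ha => (hz a ha).symm) hcon
  obtain ⟨e1, e2, hp⟩ := path_two hP hab h1 (hz b hb).symm
  have g1 : G.Adj a x := dirG_le hP (hx a ha)
  have g2 : G.Adj x b := (dirG_le hP (hx b hb)).symm
  have hq : (Walk.cons g1 (Walk.cons g2 Walk.nil) : G.Walk a b).IsPath := by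
    simp [Walk.cons_isPath_iff, g1.ne, g2.ne, hab]
  have h3 := hw.2 a b (hW a ha b hb) ⟨_, hq⟩
  rw [hp] at h3
  simp only [weight, Walk.edges_cons, Walk.edges_nil, List.map_cons, List.map_nil, List.sum_cons,
    List.sum_nil, add_zero] at h3
  have h4 := hlt a ha
  have h5 := hlt b hb
  rw [Sym2.eq_swap (a := b) (b := x), Sym2.eq_swap (a := b) (b := z)] at h5
  linarith

theorem rigid (hP : P.Consistent) {ε : ℝ} (hε : 0 < ε) (hR : RR ε P) (W : Finset (Fin n))
    (z x : Fin n) :
    ((univ.filter fun u => (dirG P).Adj u z ∧ (dirG P).Adj u x ∧ ¬ Rig W P u z x).card : ℝ) ≤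
      4 * ε * n := by
  set S := univ.filter fun u => (dirG P).Adj u z ∧ (dirG P).Adj u x ∧ ¬ Rig W P u z x with hSdef
  have hmem : ∀ u ∈ S, (dirG P).Adj u z ∧ (dirG P).Adj u x ∧ ¬ Rig W P u z x := by
    intro u hu
    rw [hSdef, mem_filter] at hu
    exact hu.2
  have hn : (0 : ℝ) ≤ n := Nat.cast_nonneg n
  rcases exists_common W z x S (fun u hu => by
    have := (hmem u hu).2.2
    unfold Rig at this
    push Not at this
    exact this) with h0 | ⟨w, hw, hwS⟩
  · rw [h0]
    simp only [card_empty, Nat.cast_zero]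
    positivity
  · have hsum : S.card = (S.filter fun u => u ∈ W ∧ w s(u, x) < w s(u, z)).card +
        (S.filter fun u => u ∈ W ∧ ¬ w s(u, x) < w s(u, z)).card +
        ((S.filter fun u => u ∉ W ∧ w s(u, x) < w s(u, z)).card +
        (S.filter fun u => u ∉ W ∧ ¬ w s(u, x) < w s(u, z)).card) := by
      have e1 : S.card = (S.filter fun u => u ∈ W).card + (S.filter fun u => u ∉ W).card :=
        (card_filter_add_card_filter_not (fun u => u ∈ W)).symm
      have e2 : (S.filter fun u => u ∈ W).card =
          (S.filter fun u => u ∈ W ∧ w s(u, x) < w s(u, z)).card +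
          (S.filter fun u => u ∈ W ∧ ¬ w s(u, x) < w s(u, z)).card := by
        rw [← filter_filter, ← filter_filter]
        exact (card_filter_add_card_filter_not (fun u => w s(u, x) < w s(u, z))).symm
      have e3 : (S.filter fun u => u ∉ W).card =
          (S.filter fun u => u ∉ W ∧ w s(u, x) < w s(u, z)).card +
          (S.filter fun u => u ∉ W ∧ ¬ w s(u, x) < w s(u, z)).card := by
        rw [← filter_filter, ← filter_filter]
        exact (card_filter_add_card_filter_not (fun u => w s(u, x) < w s(u, z))).symm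
      rw [e1, e2, e3]
    have b1 : ((S.filter fun u => u ∈ W ∧ w s(u, x) < w s(u, z)).card : ℝ) < ε * n := by
      refine no_pair hP hR W (z := z) (x := x) hw _ ?_ ?_ ?_ ?_
      · intro a ha; exact (hmem a (mem_filter.1 ha).1).1
      · intro a ha; exact (hmem a (mem_filter.1 ha).1).2.1
      · intro a ha b hb
        exact iff_of_true (mem_filter.1 ha).2.1 (mem_filter.1 hb).2.1
      · intro a ha; exact (mem_filter.1 ha).2.2
    have b2 : ((S.filter fun u => u ∈ W ∧ ¬ w s(u, x) < w s(u, z)).card : ℝ) < ε * n := by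
      refine no_pair hP hR W (z := x) (x := z) hw _ ?_ ?_ ?_ ?_
      · intro a ha; exact (hmem a (mem_filter.1 ha).1).2.1
      · intro a ha; exact (hmem a (mem_filter.1 ha).1).1
      · intro a ha b hb
        exact iff_of_true (mem_filter.1 ha).2.1 (mem_filter.1 hb).2.1
      · intro a ha
        exact lt_of_le_of_ne (not_lt.1 (mem_filter.1 ha).2.2) (hwS a (mem_filter.1 ha).1)
    have b3 : ((S.filter fun u => u ∉ W ∧ w s(u, x) < w s(u, z)).card : ℝ) < ε * n := by
      refine no_pair hP hR W (z := z) (x := x) hw _ ?_ ?_ ?_ ?_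
      · intro a ha; exact (hmem a (mem_filter.1 ha).1).1
      · intro a ha; exact (hmem a (mem_filter.1 ha).1).2.1
      · intro a ha b hb
        exact iff_of_false (mem_filter.1 ha).2.1 (mem_filter.1 hb).2.1
      · intro a ha; exact (mem_filter.1 ha).2.2
    have b4 : ((S.filter fun u => u ∉ W ∧ ¬ w s(u, x) < w s(u, z)).card : ℝ) < ε * n := by
      refine no_pair hP hR W (z := x) (x := z) hw _ ?_ ?_ ?_ ?_
      · intro a ha; exact (hmem a (mem_filter.1 ha).1).2.1
      · intro a ha; exact (hmem a (mem_filter.1 ha).1).1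
      · intro a ha b hb
        exact iff_of_false (mem_filter.1 ha).2.1 (mem_filter.1 hb).2.1
      · intro a ha
        exact lt_of_le_of_ne (not_lt.1 (mem_filter.1 ha).2.2) (hwS a (mem_filter.1 ha).1)
    have hc : (S.card : ℝ) = ((S.filter fun u => u ∈ W ∧ w s(u, x) < w s(u, z)).card : ℝ) +
        ((S.filter fun u => u ∈ W ∧ ¬ w s(u, x) < w s(u, z)).card : ℝ) +
        (((S.filter fun u => u ∉ W ∧ w s(u, x) < w s(u, z)).card : ℝ) +
        ((S.filter fun u => u ∉ W ∧ ¬ w s(u, x) < w s(u, z)).card : ℝ)) := by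
      exact_mod_cast hsum
    rw [hc]
    linarith

end

end PS
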